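import Pool.Agent.Helper6.GP.Goals

/-! # FING: from one good tuple to the probability statement -/

namespace Pool.Agent.Helper73.GP

open Matrix Equiv Filter Topology Pool.Agent.Helper15.An
open scoped ComplexOrder
open Pool.Agent.Helper3.AK (lazyLaw TupleGap Whp)
open Pool.Agent.Helper6.GP

theorem sum_snoc {Y : Type} [Fintype Y] {k : ℕ} (f : (Fin (k + 1) → Y) → ℝ) :
    ∑ x, f x = ∑ z : Fin k → Y, ∑ y, f (Fin.snoc z y) := by
  rw [← (Fin.snocEquiv (fun _ : Fin (k + 1) => Y)).sum_comp f, Fintype.sum_prod_type_right]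
  rfl

theorem natCard_eq {X : Type} [Fintype X] (P : X → Prop) :
    (Nat.card {x // P x} : ℝ) = ∑ x, (by classical exact if P x then (1 : ℝ) else 0) := by
  classical
  rw [Nat.card_eq_fintype_card, Fintype.card_subtype, Finset.card_filter]
  push_cast
  rfl

/-- the counting step -/
theorem count {Y : Type} [Fintype Y] [Nonempty Y] {k n : ℕ} (hn : 0 < n)
    (G1 : (Fin k → Y) → Prop) (G2 P : (Fin (k + 1) → Y) → Prop) (H : (Fin k → Y) → Y → Prop)
    (h1 : ∀ z, G1 z → (Nat.card {y // ¬ H z y} : ℝ) * n ≤ Fintype.card Y)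
    (h2 : ∀ x, G1 (Fin.init x) → G2 x → H (Fin.init x) (x (Fin.last k)) → P x) :
    (Nat.card {z // G1 z} : ℝ) / Nat.card (Fin k → Y) +
      (Nat.card {x // G2 x} : ℝ) / Nat.card (Fin (k + 1) → Y) - 1 - 1 / n ≤
      (Nat.card {x // P x} : ℝ) / Nat.card (Fin (k + 1) → Y) := by
  classical
  set A : ℝ := (Fintype.card Y : ℝ) with hA
  have hA0 : 0 < A := by rw [hA]; exact_mod_cast Fintype.card_pos
  have hn' : (0 : ℝ) < n := by exact_mod_cast hn
  have hT : (Nat.card (Fin (k + 1) → Y) : ℝ) = A ^ k * A := by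
    rw [Nat.card_eq_fintype_card, Fintype.card_fun, Fintype.card_fin]
    push_cast
    rw [pow_succ]
  have hT' : (Nat.card (Fin k → Y) : ℝ) = A ^ k := by
    rw [Nat.card_eq_fintype_card, Fintype.card_fun, Fintype.card_fin]
    push_cast
    rfl
  have hAk : 0 < A ^ k := pow_pos hA0 k
  -- the counts
  have e1 : ∑ x : Fin (k + 1) → Y, (if G1 (Fin.init x) then (1 : ℝ) else 0) =
      (Nat.card {z // G1 z} : ℝ) * A := by
    rw [sum_snoc, natCard_eq, Finset.sum_mul]
    refine Finset.sum_congr rfl fun z _ => ?_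
    simp only [Fin.init_snoc, Finset.sum_const, nsmul_eq_mul]
    rw [mul_comm]
    rfl
  have e2 : ∑ x : Fin (k + 1) → Y,
      (if G1 (Fin.init x) ∧ ¬ H (Fin.init x) (x (Fin.last k)) then (1 : ℝ) else 0) ≤
      A ^ k * (A / n) := by
    rw [sum_snoc]
    have : ∀ z : Fin k → Y, ∑ y, (if G1 (Fin.init (Fin.snoc z y : Fin (k + 1) → Y)) ∧
        ¬ H (Fin.init (Fin.snoc z y : Fin (k + 1) → Y))
          ((Fin.snoc z y : Fin (k + 1) → Y) (Fin.last k)) then (1 : ℝ) else 0) ≤ A / n := by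
      intro z
      simp only [Fin.init_snoc, Fin.snoc_last]
      by_cases hz : G1 z
      · have h := h1 z hz
        rw [natCard_eq] at h
        rw [le_div_iff₀ hn']
        refine le_trans (le_of_eq ?_) h
        congr 1
        refine Finset.sum_congr rfl fun y _ => ?_
        simp [hz]
      · simp only [hz, false_and, if_false, Finset.sum_const_zero]
        positivity
    calc _ ≤ ∑ _z : Fin k → Y, A / n := Finset.sum_le_sum fun z _ => this z
      _ = A ^ k * (A / n) := by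
        rw [Finset.sum_const, nsmul_eq_mul, Finset.card_univ, Fintype.card_fun, Fintype.card_fin]
        push_cast
        rfl
  have e3 : ∑ _x : Fin (k + 1) → Y, (1 : ℝ) = A ^ k * A := by
    rw [← hT, Nat.card_eq_fintype_card, Finset.sum_const, nsmul_eq_mul, mul_one,
      Finset.card_univ]
  have key : (Nat.card {z // G1 z} : ℝ) * A + (Nat.card {x // G2 x} : ℝ) - A ^ k * A -
      A ^ k * (A / n) ≤ (Nat.card {x // P x} : ℝ) := by
    have h3 : ∑ x : Fin (k + 1) → Y, ((if G1 (Fin.init x) then (1 : ℝ) else 0) +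
        (if G2 x then (1 : ℝ) else 0) - 1 -
        (if G1 (Fin.init x) ∧ ¬ H (Fin.init x) (x (Fin.last k)) then (1 : ℝ) else 0)) ≤
        ∑ x : Fin (k + 1) → Y, (if P x then (1 : ℝ) else 0) := by
      refine Finset.sum_le_sum fun x _ => ?_
      by_cases a1 : G1 (Fin.init x) <;> by_cases a2 : G2 x <;>
        by_cases a3 : H (Fin.init x) (x (Fin.last k)) <;> by_cases a4 : P x <;>
        simp [a1, a2, a3, a4]
      exact absurd (h2 x a1 a2 a3) a4
    rw [Finset.sum_sub_distrib, Finset.sum_sub_distrib, Finset.sum_add_distrib, e1, e3] at h3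
    rw [natCard_eq P, natCard_eq G2]
    linarith
  rw [hT, hT']
  have h5 : ((Nat.card {z // G1 z} : ℝ) * A + (Nat.card {x // G2 x} : ℝ) - A ^ k * A -
      A ^ k * (A / n)) / (A ^ k * A) ≤ (Nat.card {x // P x} : ℝ) / (A ^ k * A) :=
    div_le_div_of_nonneg_right key (by positivity)
  refine le_trans (le_of_eq ?_) h5
  field_simp

theorem tupleGap_mono {n k r : ℕ} {x : Fin k → Alt n} {ε ε' : ℝ} (h : ε' ≤ ε)
    (hx : TupleGap x r ε) : TupleGap x r ε' := by
  intro φ hφ
  refine (hx φ hφ).trans ?_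
  have : 0 ≤ ∑ a, φ a ^ 2 := Finset.sum_nonneg fun a _ => sq_nonneg _
  nlinarith

theorem natCard_le_one {X : Type} [Fintype X] [Nonempty X] (P : X → Prop) :
    (Nat.card {x // P x} : ℝ) / Nat.card X ≤ 1 := by
  have h0 : (0 : ℝ) < Nat.card X := by exact_mod_cast Nat.card_pos
  rw [div_le_one h0]
  exact_mod_cast Nat.card_le_card_of_injective (Subtype.val : {x // P x} → X)
    Subtype.val_injective

theorem whp_mono {k : ℕ} {α ε ε' : ℝ} (h : ε' ≤ ε) (hw : Whp k α ε) : Whp k α ε' := by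
  unfold Whp at hw ⊢
  refine tendsto_of_tendsto_of_tendsto_of_le_of_le hw tendsto_const_nhds ?_ ?_
  · intro n
    refine div_le_div_of_nonneg_right (Nat.cast_le.mpr ?_) (Nat.cast_nonneg _)
    exact Nat.card_le_card_of_injective
      (fun x : {x : Fin k → Alt n // ∀ r : ℕ, (r : ℝ) ≤ (n : ℝ) ^ α → TupleGap x r ε} =>
        (⟨x.1, fun r hr => tupleGap_mono h (x.2 r hr)⟩ :
          {x : Fin k → Alt n // ∀ r : ℕ, (r : ℝ) ≤ (n : ℝ) ^ α → TupleGap x r ε'}))
      (fun a b hab => Subtype.ext (by simpa using congrArg Subtype.val hab))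
  · intro n
    exact natCard_le_one _

theorem thm (hhitn : Pool.Agent.Helper6.GP.S_HITN) (hgoodg : Pool.Agent.Helper6.GP.S_GOODG) :
    Pool.Agent.Helper6.GP.S_FING := by
  intro k α β hk hα hα1 hβ hβ1 ⟨ε₁, hε₁, hw₁⟩ ⟨ε₂, hε₂, hw₂⟩ δ hδ
  set ε₀ : ℝ := min ε₁ 1 with hε₀
  set ε : ℝ := min ε₂ 1 with hε
  have h0 : 0 < ε₀ := lt_min hε₁ one_pos
  have h01 : ε₀ ≤ 1 := min_le_right _ _
  have h2 : 0 < ε := lt_min hε₂ one_pos
  have h21 : ε ≤ 1 := min_le_right _ _
  have W₁ : Whp k α ε₀ := whp_mono (min_le_left _ _) hw₁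
  have W₂ : Whp (k + 1) β ε := whp_mono (min_le_left _ _) hw₂
  set e : ℝ := min (min (α / 2) (1 / 4)) (min ((β - 1 / 2) / 2) (δ / 4)) with he
  have he0 : 0 < e := by
    refine lt_min (lt_min (by linarith) (by norm_num)) (lt_min (by linarith) (by linarith))
  have he1 : e ≤ α / 2 := (min_le_left _ _).trans (min_le_left _ _)
  have he2 : e ≤ 1 / 4 := (min_le_left _ _).trans (min_le_right _ _)
  have he3 : e ≤ (β - 1 / 2) / 2 := (min_le_right _ _).trans (min_le_left _ _)
  have he4 : e ≤ δ / 4 := (min_le_right _ _).trans (min_le_right _ _)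
  have HH := hhitn k α ε₀ e hk hα hα1 h0 h01 he0 (by linarith) (by linarith)
  have HG := hgoodg k α β ε₀ ε e δ hk hα hα1 hβ hβ1 h0 h01 h2 h21 he0 (by linarith)
    (by linarith) hδ
  have hlim : Tendsto (fun n : ℕ =>
      (Nat.card {x : Fin k → Alt n // ∀ r : ℕ, (r : ℝ) ≤ (n : ℝ) ^ α → TupleGap x r ε₀} : ℝ) /
        Nat.card (Fin k → Alt n) +
      (Nat.card {x : Fin (k + 1) → Alt n //
        ∀ r : ℕ, (r : ℝ) ≤ (n : ℝ) ^ β → TupleGap x r ε} : ℝ) /
        Nat.card (Fin (k + 1) → Alt n) - 1 - 1 / (n : ℝ)) atTop (𝓝 1) := by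
    have := ((W₁.add W₂).sub_const 1).sub tendsto_one_div_atTop_nhds_zero_nat
    simpa using this
  refine tendsto_of_tendsto_of_tendsto_of_le_of_le' hlim tendsto_const_nhds ?_ ?_
  · filter_upwards [HH, HG, eventually_gt_atTop 0] with n hH hG hn
    obtain ⟨M, S₀, hM, hS1, hS2, hc⟩ := hH
    refine count hn
      (fun z : Fin k → Alt n => ∀ r : ℕ, (r : ℝ) ≤ (n : ℝ) ^ α → TupleGap z r ε₀)
      (fun x : Fin (k + 1) → Alt n => ∀ r : ℕ, (r : ℝ) ≤ (n : ℝ) ^ β → TupleGap x r ε)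
      (fun x : Fin (k + 1) → Alt n => ∀ F : PW (Perm (Fin n)),
        Good F (tupW x) n ((n : ℝ) ^ (-(2 - α) - δ)))
      (fun z y => Hits z ⌈4 * (n : ℝ) ^ α * Real.log n / ε₀⌉₊
        (fun u => ((u : Perm (Fin n)) ^ M).support.card = S₀) y) ?_ ?_
    · intro z hz
      exact hc z hz _ (Nat.le_ceil _)
    · intro x _ hx2 hx3
      exact hG M S₀ x hM hS1 hS2 hx2 hx3
  · exact Eventually.of_forall fun n => natCard_le_one _

end Pool.Agent.Helper73.GP
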